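import Pool.Agent.Helper75.RS.B2
import Pool.Agent.Helper98.RS.B0

/-!
RS-B3: Lemma N.
-/

open scoped Pointwise

namespace Pool.Agent.Helper75.RS

open Pool.Agent.Helper98.RS

variable {F : Type} [Group F]

theorem one_mem_Bl (S : Set F) (n : ℕ) : (1 : F) ∈ Bl S n := by
  unfold Bl
  induction n with
  | zero => simp
  | succ n ih =>
    rw [pow_succ]
    exact ⟨1, ih, 1, by simp, by simp⟩

theorem mul_mem_Bl {S : Set F} {m n : ℕ} {a b : F} (ha : a ∈ Bl S m) (hb : b ∈ Bl S n) :
    a * b ∈ Bl S (m + n) := by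
  unfold Bl at *
  rw [pow_add]
  exact Set.mul_mem_mul ha hb

theorem mem_Bl_one {S : Set F} {s : F} (hs : s ∈ S) : s ∈ Bl S 1 := by
  unfold Bl; rw [pow_one]; exact Or.inl (Or.inr hs)

theorem inv_mem_Bl_one {S : Set F} {s : F} (hs : s ∈ S) : s⁻¹ ∈ Bl S 1 := by
  unfold Bl; rw [pow_one]; exact Or.inr (by simpa using hs)

theorem inv_mem_Bl {S : Set F} {n : ℕ} {a : F} (ha : a ∈ Bl S n) : a⁻¹ ∈ Bl S n := by
  unfold Bl at *
  induction n generalizing a with
  | zero => simpa using ha
  | succ n ih =>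
    rw [pow_succ] at ha
    obtain ⟨b, hb, c, hc, rfl⟩ := ha
    rw [pow_succ']
    refine ⟨c⁻¹, ?_, b⁻¹, ih hb, by simp⟩
    rcases hc with (hc | hc) | hc
    · left; left; simpa using hc
    · right; simpa using hc
    · left; right; exact hc

theorem Bl_mono {S : Set F} {m n : ℕ} (h : m ≤ n) : Bl S m ⊆ Bl S n := by
  intro a ha
  obtain ⟨k, rfl⟩ := Nat.exists_eq_add_of_le h
  simpa using mul_mem_Bl ha (one_mem_Bl S k)

/-- group generated by the conjugates of `x` by the elements of a ball. -/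
def Cl (S : Set F) (x : F) (r : ℕ) : Subgroup F :=
  Subgroup.closure {g | ∃ z ∈ Bl S r, g = z⁻¹ * x * z}

theorem Cl_comm {S : Set F} {x : F} {r n : ℕ} (hr : 2 * r ≤ n)
    (h : ∀ z ∈ Bl S n, x * (z⁻¹ * x * z) = (z⁻¹ * x * z) * x) :
    ∀ a ∈ Cl S x r, ∀ b ∈ Cl S x r, a * b = b * a := by
  have h1 : ∀ a ∈ {g | ∃ z ∈ Bl S r, g = z⁻¹ * x * z},
      ∀ b ∈ {g | ∃ z ∈ Bl S r, g = z⁻¹ * x * z}, a * b = b * a := by
    rintro _ ⟨z, hz, rfl⟩ _ ⟨w, hw, rfl⟩
    have h2 := h (w * z⁻¹) (Bl_mono hr (by rw [two_mul]; exact mul_mem_Bl hw (inv_mem_Bl hz)))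
    have h3 : (w * z⁻¹)⁻¹ * x * (w * z⁻¹) = z * (w⁻¹ * x * w) * z⁻¹ := by group
    rw [h3] at h2
    have h4 : z⁻¹ * x * z * (w⁻¹ * x * w) = z⁻¹ * (x * (z * (w⁻¹ * x * w) * z⁻¹)) * z := by group
    rw [h4, h2]; group
  have : IsMulCommutative (Cl S x r) := Subgroup.isMulCommutative_closure h1
  intro a ha b hb
  exact setLike_mul_comm (S := Subgroup F) (s := Cl S x r) ha hb

/-- the closure is normalised when the chain stops. -/
theorem Cl_normal {S : Set F} (hS : Subgroup.closure S = ⊤) {x : F} {r : ℕ}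
    (h : Cl S x (r + 1) ≤ Cl S x r) : (Cl S x r).Normal := by
  have h0 : ∀ s : F, s ∈ Bl S 1 → ∀ g ∈ Cl S x r, s⁻¹ * g * s ∈ Cl S x r := by
    intro s hs g hg
    unfold Cl at hg
    induction hg using Subgroup.closure_induction with
    | mem g hg =>
      obtain ⟨z, hz, rfl⟩ := hg
      apply h
      apply Subgroup.subset_closure
      exact ⟨z * s, mul_mem_Bl hz hs, by group⟩
    | one => simp
    | mul a b _ _ ha hb =>
      have : s⁻¹ * (a * b) * s = (s⁻¹ * a * s) * (s⁻¹ * b * s) := by group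
      rw [this]; exact Subgroup.mul_mem _ ha hb
    | inv a _ ha =>
      have : s⁻¹ * a⁻¹ * s = (s⁻¹ * a * s)⁻¹ := by group
      rw [this]; exact Subgroup.inv_mem _ ha
  have h1 : ∀ t : F, ∀ g, g ∈ Cl S x r ↔ t * g * t⁻¹ ∈ Cl S x r := by
    intro t
    have ht : t ∈ Subgroup.closure S := by rw [hS]; trivial
    induction ht using Subgroup.closure_induction with
    | mem t ht =>
      intro g
      constructor
      · intro hg
        simpa using h0 t⁻¹ (inv_mem_Bl_one ht) g hg
      · intro hg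
        have := h0 t (mem_Bl_one ht) _ hg
        have e : t⁻¹ * (t * g * t⁻¹) * t = g := by group
        rwa [e] at this
    | one => intro g; simp
    | mul a b _ _ ha hb =>
      intro g
      rw [hb g, ha (b * g * b⁻¹)]
      have : a * (b * g * b⁻¹) * a⁻¹ = a * b * g * (a * b)⁻¹ := by group
      rw [this]
    | inv a _ ha =>
      intro g
      rw [ha (a⁻¹ * g * a⁻¹⁻¹)]
      have : a * (a⁻¹ * g * a⁻¹⁻¹) * a⁻¹ = g := by group
      rw [this]
  exact ⟨fun g hg t => (h1 t g).1 hg⟩

theorem Cl_mono {S : Set F} {x : F} {r r' : ℕ} (h : r ≤ r') : Cl S x r ≤ Cl S x r' := by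
  apply Subgroup.closure_mono
  rintro _ ⟨z, hz, rfl⟩
  exact ⟨z, Bl_mono h hz, rfl⟩

theorem mem_Cl (S : Set F) (x : F) (r : ℕ) : x ∈ Cl S x r :=
  Subgroup.subset_closure ⟨1, one_mem_Bl S r, by group⟩

theorem Cl_pow {S : Set F} {x : F} {r : ℕ} (hc : ∀ a ∈ Cl S x r, ∀ b ∈ Cl S x r, a * b = b * a)
    {m : ℕ} {E : Type} [Group E] (π : F →* E) (hx : (π x) ^ m = 1) :
    ∀ g ∈ Cl S x r, (π g) ^ m = 1 := by
  intro g hg
  unfold Cl at hg
  induction hg using Subgroup.closure_induction with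
  | mem g hg =>
    obtain ⟨z, hz, rfl⟩ := hg
    have : π (z⁻¹ * x * z) = (π z)⁻¹ * π x * ((π z)⁻¹)⁻¹ := by simp
    rw [this, conj_pow, hx]; simp
  | one => simp
  | mul a b ha' hb' ha hb =>
    have : Commute (π a) (π b) := by
      show π a * π b = π b * π a
      rw [← map_mul, ← map_mul, hc a ha' b hb']
    rw [map_mul, this.mul_pow, ha, hb, one_mul]
  | inv a _ ha => rw [map_inv, inv_pow, ha, inv_one]

section q

variable {E : Type} [Group E] [Finite F] {p q d : ℕ} [Fact p.Prime] {V : Type} [AddCommGroup V]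
  [Module (ZMod p) V] [Finite V]

theorem core_q (hq : q.Prime) (hqp : q ≠ p) (π : F →* E) (hp1 : ∀ u, π u = 1 → u ^ p = 1)
    (hcent : ∀ g : F, (∀ u, π u = 1 → g * u = u * g) → π g = 1)
    (ρ : Representation (ZMod p) E V) (hinj : Function.Injective ρ)
    (hd : Module.finrank (ZMod p) V = d) (S : Set F) (hS : Subgroup.closure S = ⊤)
    (y : F) (hyq : y ^ q = 1) (hy : π y ≠ 1)
    (h : ∀ z ∈ Bl S (2 * d), y * (z⁻¹ * y * z) = (z⁻¹ * y * z) * y) : False := by
  have hc : ∀ r ≤ d, ∀ a ∈ Cl S y r, ∀ b ∈ Cl S y r, a * b = b * a :=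
    fun r hr => Cl_comm (by omega) h
  have hex : ∀ r ≤ d, ∀ g ∈ Cl S y r, g ^ q = 1 := fun r hr =>
    Cl_pow (hc r hr) (MonoidHom.id F) hyq
  have hpq : ∀ g : F, g ^ p = 1 → g ^ q = 1 → g = 1 := by
    intro g h1 h2
    have h3 : orderOf g ∣ p := orderOf_dvd_of_pow_eq_one h1
    have h4 : orderOf g ∣ q := orderOf_dvd_of_pow_eq_one h2
    have h5 : Nat.Coprime p q := (Nat.coprime_primes Fact.out hq).2 (Ne.symm hqp)
    have h6 : orderOf g ∣ 1 := h5 ▸ Nat.dvd_gcd h3 h4
    exact orderOf_eq_one_iff.1 (Nat.dvd_one.1 h6)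
  have hcard : ∀ r ≤ d, Nat.card (Cl S y r) ≤ q ^ d := by
    intro r hr
    let σ : Representation (ZMod p) (Cl S y r) V := ρ.comp (π.comp (Cl S y r).subtype)
    have hσ : Function.Injective σ := by
      rw [← MonoidHom.ker_eq_bot_iff, eq_bot_iff]
      rintro ⟨g, hg⟩ hk
      have h1 : ρ (π g) = 1 := hk
      have h2 : π g = 1 := hinj (by rw [h1, map_one])
      have h3 : g = 1 := hpq g (hp1 g h2) (hex r hr g hg)
      rw [Subgroup.mem_bot]
      exact Subtype.ext h3
    have := elab_rank (p := p) hq hqp (Cl S y r) V σ hσ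
      (fun a b => Subtype.ext (hc r hr a a.2 b b.2)) (fun a => Subtype.ext (hex r hr a a.2))
    rwa [hd] at this
  have hgrow : ∀ r ≤ d, q ^ (r + 1) ≤ Nat.card (Cl S y r) := by
    intro r
    induction r with
    | zero =>
      intro hr
      have h1 : y ≠ 1 := by rintro rfl; exact hy (map_one π)
      haveI : Fact q.Prime := ⟨hq⟩
      have h2 : orderOf (⟨y, mem_Cl S y 0⟩ : Cl S y 0) = q :=
        orderOf_eq_prime (Subtype.ext hyq) (fun h => h1 (congrArg Subtype.val h))
      rw [zero_add, pow_one, ← h2]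
      exact Nat.le_of_dvd Nat.card_pos (orderOf_dvd_natCard _)
    | succ r ih =>
      intro hr
      have hr' : r ≤ d := by omega
      have h1 := ih hr'
      have hle : Cl S y r ≤ Cl S y (r + 1) := Cl_mono (Nat.le_succ r)
      have hne : ¬ Cl S y (r + 1) ≤ Cl S y r := by
        intro hle'
        have hn := Cl_normal hS hle'
        apply hy
        apply hcent
        intro u hu
        have h2 : y * u * y⁻¹ * u⁻¹ ∈ Cl S y r := by
          have h3 := hn.conj_mem _ (Subgroup.inv_mem _ (mem_Cl S y r)) u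
          have h4 := Subgroup.mul_mem _ (mem_Cl S y r) h3
          have e : y * (u * y⁻¹ * u⁻¹) = y * u * y⁻¹ * u⁻¹ := by group
          rwa [e] at h4
        have h5 : π (y * u * y⁻¹ * u⁻¹) = 1 := by simp [hu]
        have h6 := hpq _ (hp1 _ h5) (hex r hr' _ h2)
        have e2 : y * u = (y * u * y⁻¹ * u⁻¹) * (u * y) := by group
        rw [e2, h6, one_mul]
      haveI : Fact q.Prime := ⟨hq⟩
      have hpg : IsPGroup q (Cl S y (r + 1)) := by
        intro g
        exact ⟨1, by rw [pow_one]; exact Subtype.ext (hex (r + 1) hr g g.2)⟩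
      obtain ⟨n, hn⟩ := IsPGroup.iff_card.1 hpg
      have hdvd : Nat.card (Cl S y r) ∣ Nat.card (Cl S y (r + 1)) :=
        Subgroup.card_dvd_of_le hle
      rw [hn] at hdvd
      obtain ⟨m, hm, hm'⟩ := (Nat.dvd_prime_pow hq).1 hdvd
      have hlt : m < n := by
        rcases Nat.lt_or_ge m n with h7 | h7
        · exact h7
        · exfalso
          apply hne
          have h8 : Nat.card (Cl S y (r + 1)) ≤ Nat.card (Cl S y r) := by
            rw [hn, hm']; exact Nat.pow_le_pow_right hq.pos h7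
          exact (Subgroup.eq_of_le_of_card_ge hle h8).ge
      rw [hm'] at h1
      have h9 : r + 1 ≤ m := (Nat.pow_le_pow_iff_right hq.one_lt).1 h1
      rw [hn]
      exact Nat.pow_le_pow_right hq.pos (by omega)
  have h1 := hgrow d le_rfl
  have h2 := hcard d le_rfl
  have h3 : q ^ d < q ^ (d + 1) := Nat.pow_lt_pow_right hq.one_lt (Nat.lt_succ_self d)
  omega

theorem core_p (π : F →* E) (hπ : Function.Surjective π)
    (ρ : Representation (ZMod p) E V) (hinj : Function.Injective ρ) (hirr : Irr ρ)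
    (hd : Module.finrank (ZMod p) V = d) (S : Set F) (hS : Subgroup.closure S = ⊤)
    (x : F) {k : ℕ} (hxk : (π x) ^ (p ^ k) = 1) (hx : π x ≠ 1)
    (h : ∀ z ∈ Bl S (2 * d), x * (z⁻¹ * x * z) = (z⁻¹ * x * z) * x) : False := by
  classical
  have hc : ∀ r ≤ d, ∀ a ∈ Cl S x r, ∀ b ∈ Cl S x r, a * b = b * a :=
    fun r hr => Cl_comm (by omega) h
  let W : ℕ → Submodule (ZMod p) V := fun r =>
    { carrier := {v | ∀ g ∈ Cl S x r, ρ (π g) v = v}
      add_mem' := fun {a b} ha hb g hg => by rw [map_add, ha g hg, hb g hg]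
      zero_mem' := fun g _ => by rw [map_zero]
      smul_mem' := fun c v hv g hg => by rw [map_smul, hv g hg] }
  have hW : ∀ r v, v ∈ W r ↔ ∀ g ∈ Cl S x r, ρ (π g) v = v := fun r v => Iff.rfl
  have hne : ∀ r ≤ d, W r ≠ ⊥ := by
    intro r hr hb
    let D : Subgroup E := (Cl S x r).map π
    have hD : IsPGroup p D := by
      rintro ⟨e, he⟩
      obtain ⟨g, hg, rfl⟩ := he
      exact ⟨k, Subtype.ext (Cl_pow (hc r hr) π hxk g hg)⟩
    letI : MulAction D V :=
      { smul := fun g v => ρ g v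
        one_smul := fun v => by show ρ ((1 : D) : E) v = v; simp
        mul_smul := fun a b v => by show ρ ((a * b : D) : E) v = ρ a (ρ b v); simp }
    have hdv : p ∣ Nat.card V := by
      rw [Module.natCard_eq_pow_finrank (K := ZMod p) (V := V), Nat.card_zmod]
      apply dvd_pow_self
      haveI := hirr.1
      exact Module.finrank_pos.ne'
    have h0 : (0 : V) ∈ MulAction.fixedPoints D V := fun g => by
      show ρ g 0 = 0; simp
    obtain ⟨b, hb1, hb2⟩ := hD.exists_fixed_point_of_prime_dvd_card_of_fixed_point V hdv h0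
    apply hb2
    have : b ∈ W r := by
      rw [hW]
      intro g hg
      exact hb1 ⟨π g, ⟨g, hg, rfl⟩⟩
    rw [hb, Submodule.mem_bot] at this
    exact this.symm
  have hmono : ∀ r, W (r + 1) ≤ W r := by
    intro r v hv g hg
    exact hv g (Cl_mono (Nat.le_succ r) hg)
  have hW0 : ∀ r, W r ≠ ⊤ := by
    intro r ht
    apply hx
    apply hinj
    rw [map_one]
    ext v
    have : v ∈ W r := by rw [ht]; trivial
    exact this x (mem_Cl S x r)
  have hstep : ∀ r ≤ d, W (r + 1) < W r := by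
    intro r hr
    refine lt_of_le_of_ne (hmono r) ?_
    intro he
    have h0 : ∀ s : F, s ∈ Bl S 1 → ∀ v ∈ W r, ρ (π s) v ∈ W r := by
      intro s hs v hv
      rw [← he] at hv
      -- enough on generators
      have key : ∀ g ∈ Cl S x r, s⁻¹ * g * s ∈ Cl S x (r + 1) := by
        intro g hg
        unfold Cl at hg
        induction hg using Subgroup.closure_induction with
        | mem g hg =>
          obtain ⟨z, hz, rfl⟩ := hg
          apply Subgroup.subset_closure
          exact ⟨z * s, mul_mem_Bl hz hs, by group⟩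
        | one => simp
        | mul a b _ _ ha hb =>
          have : s⁻¹ * (a * b) * s = (s⁻¹ * a * s) * (s⁻¹ * b * s) := by group
          rw [this]; exact Subgroup.mul_mem _ ha hb
        | inv a _ ha =>
          have : s⁻¹ * a⁻¹ * s = (s⁻¹ * a * s)⁻¹ := by group
          rw [this]; exact Subgroup.inv_mem _ ha
      intro g hg
      have h1 := hv _ (key g hg)
      have h2 : ρ (π g) (ρ (π s) v) = ρ (π s) (ρ (π (s⁻¹ * g * s)) v) := by
        rw [← Module.End.mul_apply, ← Module.End.mul_apply, ← map_mul, ← map_mul, ← map_mul,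
          ← map_mul]
        congr 3
        group
      rw [h2, h1]
    have h1 : ∀ t : F, ∀ v, v ∈ W r ↔ ρ (π t) v ∈ W r := by
      intro t
      have ht : t ∈ Subgroup.closure S := by rw [hS]; trivial
      induction ht using Subgroup.closure_induction with
      | mem t ht =>
        intro v
        constructor
        · exact h0 t (mem_Bl_one ht) v
        · intro hv
          have h2 := h0 _ (inv_mem_Bl_one ht) _ hv
          have e : ρ (π t⁻¹) (ρ (π t) v) = v := by
            rw [← Module.End.mul_apply, ← map_mul, ← map_mul]; simp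
          rwa [e] at h2
      | one => intro v; simp
      | mul a b _ _ ha hb =>
        intro v
        rw [hb v, ha _, ← Module.End.mul_apply, ← map_mul, ← map_mul]
      | inv a _ ha =>
        intro v
        rw [ha (ρ (π a⁻¹) v), ← Module.End.mul_apply, ← map_mul, ← map_mul]
        simp
    have h2 : ∀ e : E, ∀ v ∈ W r, ρ e v ∈ W r := by
      intro e v hv
      obtain ⟨t, rfl⟩ := hπ e
      exact (h1 t v).1 hv
    rcases hirr.2 (W r) h2 with h3 | h3
    · exact hne r hr h3
    · exact hW0 r h3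
  have hfin : ∀ r ≤ d, Module.finrank (ZMod p) (W r) + r + 1 ≤ d := by
    intro r
    induction r with
    | zero =>
      intro _
      have h1 := Submodule.finrank_lt (hW0 0)
      omega
    | succ r ih =>
      intro hr
      have h1 := ih (by omega)
      have h2 := Submodule.finrank_lt_finrank_of_lt (hstep r (by omega))
      omega
  have := hfin d le_rfl
  omega

end q

theorem Bl_image {G F : Type} [Group G] [Group F] (f : G →* F) (S : Set G) (n : ℕ) :
    Bl (f '' S) n = f '' Bl S n := by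
  unfold Bl
  induction n with
  | zero => simp; rfl
  | succ n ih =>
    rw [pow_succ, pow_succ, ih, Set.image_mul]
    congr 1
    rw [Set.image_union, Set.image_union, Set.image_singleton, map_one]
    congr 1
    exact (Set.image_inv f S).symm

variable {G : Type} [Group G] {p d : ℕ} {N M : Subgroup G}

theorem lemmaN (S : Set G) (hS : Subgroup.closure S = ⊤) (h : Prim p d N M) (x : G)
    (hx : x ∉ M) : ∃ z ∈ Bl S (2 * d + 4), cc x z ∉ N := by
  classical
  by_contra hcon
  push Not at hcon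
  obtain ⟨hpF, hMn, V, _, _, hVf, ρ, -, hinj, hirr, hd, -⟩ := prim_rep h
  haveI := h.nN
  haveI := h.fin
  let φ : G →* G ⧸ N := QuotientGroup.mk' N
  let π : G ⧸ N →* G ⧸ M := QuotientGroup.map N M (MonoidHom.id G) h.le
  have hφ : Function.Surjective φ := QuotientGroup.mk'_surjective N
  have hπφ : ∀ g, π (φ g) = QuotientGroup.mk g := fun g => rfl
  have hπ : Function.Surjective π := by
    intro e
    obtain ⟨g, rfl⟩ := QuotientGroup.mk_surjective e
    exact ⟨φ g, rfl⟩
  have hS' : Subgroup.closure (φ '' S) = ⊤ := by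
    rw [← MonoidHom.map_closure, hS, ← MonoidHom.range_eq_map, MonoidHom.range_eq_top]
    exact hφ
  have hker : ∀ g, π (φ g) = 1 ↔ g ∈ M := fun g => by
    rw [hπφ]; exact QuotientGroup.eq_one_iff g
  have hφ1 : ∀ g, φ g = 1 ↔ g ∈ N := fun g => QuotientGroup.eq_one_iff g
  have hcomm : ∀ z ∈ Bl (φ '' S) (2 * d),
      φ x * (z⁻¹ * φ x * z) = (z⁻¹ * φ x * z) * φ x := by
    intro z hz
    rw [Bl_image] at hz
    obtain ⟨w, hw, rfl⟩ := hz
    have h1 := (hφ1 _).2 (hcon w (Bl_mono (by omega) hw))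
    unfold cc at h1
    simp only [map_mul, map_inv] at h1
    have e : (φ w)⁻¹ * φ x * φ w * φ x * ((φ x)⁻¹ * ((φ w)⁻¹ * φ x * φ w)⁻¹ * φ x *
      ((φ w)⁻¹ * φ x * φ w)) = φ x * ((φ w)⁻¹ * φ x * φ w) := by group
    rw [← e, h1, mul_one]
  have hx1 : π (φ x) ≠ 1 := fun h1 => hx ((hker x).1 h1)
  by_cases hk : ∃ k, (φ x) ^ (p ^ k) = 1
  · obtain ⟨k, hk⟩ := hk
    exact core_p π hπ ρ hinj hirr hd (φ '' S) hS' (φ x) (k := k)
      (by rw [← map_pow, hk, map_one]) hx1 hcomm
  · -- a prime different from `p` divides the order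
    have ho : orderOf (φ x) ≠ 0 := (orderOf_pos (φ x)).ne'
    obtain ⟨q, hq, hqo, hqp⟩ : ∃ q, q.Prime ∧ q ∣ orderOf (φ x) ∧ q ≠ p := by
      by_contra hno
      push Not at hno
      have h1 : orderOf (φ x) = p ^ (orderOf (φ x)).primeFactorsList.length :=
        Nat.eq_prime_pow_of_unique_prime_dvd ho (fun {q} hq hqd => hno q hq hqd)
      apply hk
      refine ⟨(orderOf (φ x)).primeFactorsList.length, ?_⟩
      rw [← h1, pow_orderOf_eq_one]
    let m := orderOf (φ x) / q
    let y := (φ x) ^ m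
    have hyo : orderOf y = q := by
      show orderOf ((φ x) ^ (orderOf (φ x) / q)) = q
      rw [orderOf_pow_orderOf_div ho hqo]
    have hyq : y ^ q = 1 := by rw [← hyo, pow_orderOf_eq_one]
    have hexp : ∀ u, π u = 1 → u ^ p = 1 := by
      intro u hu
      obtain ⟨g, rfl⟩ := hφ u
      rw [← map_pow, hφ1]
      exact h.exp g ((hker g).1 hu)
    have hy : π y ≠ 1 := by
      intro h1
      have h2 := hexp y h1
      have h3 : q ∣ p := hyo ▸ orderOf_dvd_of_pow_eq_one h2
      exact hqp ((Nat.prime_dvd_prime_iff_eq hq h.prime).1 h3)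
    refine core_q hq hqp π hexp ?_ ρ hinj hd (φ '' S) hS' y hyq hy ?_
    · intro g hg
      obtain ⟨g, rfl⟩ := hφ g
      rw [hker]
      apply h.cent
      intro m hm
      have h1 := hg (φ m) ((hker m).2 hm)
      rw [← hφ1]
      simp only [map_mul, map_inv]
      rw [h1]; group
    · intro z hz
      have h1 : Commute (φ x) (z⁻¹ * φ x * z) := hcomm z hz
      have h2 : z⁻¹ * y * z = (z⁻¹ * φ x * z) ^ m := by
        have : z⁻¹ * φ x * z = z⁻¹ * φ x * (z⁻¹)⁻¹ := by rw [inv_inv]
        rw [this, conj_pow, inv_inv]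
      rw [h2]
      exact (h1.pow_pow m m).eq

end Pool.Agent.Helper75.RS
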