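import Pool.Agent.Helper75.RS.Rank
import Pool.Agent.Helper98.RS.Defs

namespace Pool.Agent.Helper75.RS

theorem elab_rank' {p q : ℕ} [Fact p.Prime] (hq : q.Prime) (hqp : q ≠ p) (Q : Type) [CommGroup Q]
    [Finite Q] (V : Type) [AddCommGroup V] [Module (ZMod p) V] [Finite V]
    (ρ : Representation (ZMod p) Q V) (hinj : Function.Injective ρ)
    (hx : ∀ x : Q, x ^ q = 1) :
    Nat.card Q ≤ q ^ (Module.finrank (ZMod p) V) := by
  classical
  haveI : Finite ρ.asModule := ‹Finite V›
  have hM : ∀ x : ρ.asModule, p • x = 0 := by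
    intro x
    have : p • (ρ.asModuleEquiv x) = 0 := by
      rw [← Nat.cast_smul_eq_nsmul (ZMod p), CharP.cast_eq_zero, zero_smul]
    exact this
  have hcard : Nat.card (⊤ : Submodule (MonoidAlgebra (ZMod p) Q) ρ.asModule) ≤
      p ^ (Module.finrank (ZMod p) V) := by
    have h1 : Nat.card (⊤ : Submodule (MonoidAlgebra (ZMod p) Q) ρ.asModule) = Nat.card V :=
      Nat.card_congr (Submodule.topEquiv.toEquiv.trans ρ.asModuleEquiv.toEquiv)
    rw [h1, Module.natCard_eq_pow_finrank (K := ZMod p) (V := V), Nat.card_zmod]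
  have h := index_ker_le (Fact.out : p.Prime) hq (Ne.symm hqp)
    (MonoidAlgebra.of (ZMod p) Q) hx hM (Module.finrank (ZMod p) V) ⊤ hcard
  have hk : Ker (MonoidAlgebra.of (ZMod p) Q) (⊤ : Submodule (MonoidAlgebra (ZMod p) Q) ρ.asModule)
      = ⊥ := by
    rw [eq_bot_iff]
    intro g hg
    rw [Subgroup.mem_bot]
    apply hinj
    rw [map_one]
    ext v
    have h2 := hg (ρ.asModuleEquiv.symm v) trivial
    have h3 : ρ.asModuleEquiv (MonoidAlgebra.of (ZMod p) Q g • ρ.asModuleEquiv.symm v) = v := by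
      rw [h2]; simp
    rw [Representation.asModuleEquiv_map_smul] at h3
    simpa using h3
  rw [hk, Subgroup.index_bot] at h
  exact h

/-- An elementary abelian group of exponent `q`, prime to `p`, acting faithfully in dimension `d`
in characteristic `p` has order at most `q ^ d`. -/
theorem elab_rank {p q : ℕ} [Fact p.Prime] (hq : q.Prime) (hqp : q ≠ p) (Q : Type) [Group Q]
    [Finite Q] (V : Type) [AddCommGroup V] [Module (ZMod p) V] [Finite V]
    (ρ : Representation (ZMod p) Q V) (hinj : Function.Injective ρ)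
    (hc : ∀ x y : Q, x * y = y * x) (hx : ∀ x : Q, x ^ q = 1) :
    Nat.card Q ≤ q ^ (Module.finrank (ZMod p) V) := by
  letI : CommGroup Q := { ‹Group Q› with mul_comm := hc }
  exact elab_rank' hq hqp Q V ρ hinj hx

end Pool.Agent.Helper75.RS
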