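import Mathlib

set_option autoImplicit false

namespace Pool.Agent.Helper75.RS

open Subgroup

/-- Finite-by-(virtually nilpotent) groups are virtually nilpotent. -/
theorem vn_of_finite_ker {G : Type*} [Group G] (P : Subgroup G) [P.Normal] [Finite P]
    (h : ∃ H : Subgroup (G ⧸ P), H.FiniteIndex ∧ Group.IsNilpotent H) :
    ∃ H : Subgroup G, H.FiniteIndex ∧ Group.IsNilpotent H := by
  obtain ⟨H, hH, hn⟩ := h
  have hNf : (H.comap (QuotientGroup.mk' P)).FiniteIndex := by
    constructor
    rw [Subgroup.index_comap_of_surjective H (QuotientGroup.mk'_surjective P)]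
    exact hH.index_ne_zero
  have hKf : (MulAut.conjNormal (H := P)).ker.FiniteIndex := by
    have : Finite (MulAut P) := by
      apply Finite.of_injective (fun f : MulAut P => (f : P → P))
      intro f g hfg
      exact DFunLike.coe_injective hfg
    infer_instance
  refine ⟨H.comap (QuotientGroup.mk' P) ⊓ (MulAut.conjNormal (H := P)).ker, inferInstance, ?_⟩
  let f : ↥(H.comap (QuotientGroup.mk' P) ⊓ (MulAut.conjNormal (H := P)).ker) →* H :=
    ((QuotientGroup.mk' P).comp (Subgroup.subtype _)).codRestrict H (fun x => x.2.1)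
  apply Subgroup.isNilpotent_of_ker_le_center f
  intro x hx
  rw [Subgroup.mem_center_iff]
  intro y
  have hxP : (x : G) ∈ P := by
    have h1 : ((f x : H) : G ⧸ P) = 1 := by rw [MonoidHom.mem_ker.mp hx]; rfl
    exact (QuotientGroup.eq_one_iff _).mp h1
  have hy : (MulAut.conjNormal (H := P)) (y : G) = 1 := MonoidHom.mem_ker.mp y.2.2
  have h2 := congrArg (fun φ : MulAut P => ((φ ⟨x, hxP⟩ : P) : G)) hy
  simp only [MulAut.conjNormal_apply, MulAut.one_apply] at h2
  apply Subtype.ext
  have h3 : (y : G) * (x : G) * (y : G)⁻¹ = (x : G) := h2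
  change (y : G) * x = x * y
  calc (y : G) * x = (y * x * (y : G)⁻¹) * y := by group
    _ = x * y := by rw [h3]

end Pool.Agent.Helper75.RS
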