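import Mathlib

/-!
Rank bound: an abelian group of prime exponent `q` acting faithfully on an elementary abelian
`p`-group of order `p^n`, `q ≠ p`, has order at most `q^n`.
-/

namespace Pool.Agent.Helper75.RS

variable {A : Type*} [CommRing A] {Q : Type*} [CommGroup Q]
variable {M : Type*} [AddCommGroup M] [Module A M]

/-- kernel of the action of `Q` (through `f`) on a submodule. -/
def Ker (f : Q →* A) (N : Submodule A M) : Subgroup Q where
  carrier := {g | ∀ x ∈ N, f g • x = x}
  mul_mem' := by
    intro a b ha hb x hx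
    rw [map_mul, mul_smul, hb x hx, ha x hx]
  one_mem' := by
    intro x _
    rw [map_one, one_smul]
  inv_mem' := by
    intro a ha x hx
    have h1 : f a⁻¹ • (f a • x) = x := by
      rw [← mul_smul, ← map_mul, inv_mul_cancel, map_one, one_smul]
    rwa [ha x hx] at h1

/-- kernel on the quotient `N/N'`. -/
def KerQ (f : Q →* A) (N' N : Submodule A M) : Subgroup Q where
  carrier := {g | ∀ x ∈ N, f g • x - x ∈ N'}
  mul_mem' := by
    intro a b ha hb x hx
    have h1 := ha (f b • x) (N.smul_mem _ hx)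
    have h2 := hb x hx
    have h3 := N'.add_mem h1 h2
    simpa [map_mul, mul_smul] using h3
  one_mem' := by
    intro x _
    simp
  inv_mem' := by
    intro a ha x hx
    have h1 := ha (f a⁻¹ • x) (N.smul_mem _ hx)
    have h2 : f a • f a⁻¹ • x = x := by
      rw [← mul_smul, ← map_mul, mul_inv_cancel, map_one, one_smul]
    rw [h2] at h1
    have h3 := N'.neg_mem h1
    simpa using h3

theorem one_add_pow_smul (D : A) (x : M) (h : D • D • x = 0) (n : ℕ) :
    (1 + D) ^ n • x = x + n • (D • x) := by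
  induction n with
  | zero => simp
  | succ n ih =>
    rw [pow_succ', mul_smul, ih, add_smul, one_smul, smul_add, smul_comm D n, h, smul_zero,
      add_zero, add_assoc, succ_nsmul]

theorem ker_inf_le {p q : ℕ} (hc : Nat.Coprime p q) (f : Q →* A) (hQ : ∀ g : Q, g ^ q = 1)
    (hM : ∀ x : M, p • x = 0) (N' N : Submodule A M) :
    Ker f N' ⊓ KerQ f N' N ≤ Ker f N := by
  rintro g ⟨h1, h2⟩ x hx
  have h3 : (f g - 1) • x ∈ N' := by
    have := h2 x hx
    rwa [sub_smul, one_smul]
  have h4 : (f g - 1) • (f g - 1) • x = 0 := by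
    have := h1 _ h3
    rw [sub_smul (f g) 1 ((f g - 1) • x), one_smul, this, sub_self]
  have h5 := one_add_pow_smul (f g - 1) x h4 p
  rw [add_sub_cancel, ← map_pow, hM ((f g - 1) • x), add_zero] at h5
  -- g^p and g^q fix x
  have h6 : g ^ p ∈ Ker f (Submodule.span A {x}) := by
    intro y hy
    obtain ⟨a, rfl⟩ := Submodule.mem_span_singleton.1 hy
    rw [smul_comm, h5]
  have h7 : g ^ q ∈ Ker f (Submodule.span A {x}) := by
    rw [hQ g]; exact Subgroup.one_mem _
  have h8 : g ∈ Ker f (Submodule.span A {x}) := by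
    have e1 : (g : Q) = (g ^ p) ^ (Nat.gcdA p q) * (g ^ q) ^ (Nat.gcdB p q) := by
      have hb := Nat.gcd_eq_gcd_ab p q
      rw [hc] at hb
      rw [← zpow_natCast, ← zpow_natCast, ← zpow_mul, ← zpow_mul, ← zpow_add, ← hb]
      simp
    rw [e1]
    exact Subgroup.mul_mem _ (Subgroup.zpow_mem _ h6 _) (Subgroup.zpow_mem _ h7 _)
  exact h8 x (Submodule.mem_span_singleton_self x)

theorem card_le_of_domain {q : ℕ} (hq : q.Prime) {B : Type*} [CommRing B] [IsDomain B]
    [Finite Q] (hQ : ∀ g : Q, g ^ q = 1) (φ : Q →* B) : φ.ker.index ≤ q := by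
  classical
  let ψ : Q ⧸ φ.ker →* B := QuotientGroup.lift φ.ker φ (fun x hx => hx)
  have hinj : Function.Injective ψ := by
    rw [← MonoidHom.ker_eq_bot_iff]
    rw [eq_bot_iff]
    intro x hx
    obtain ⟨g, rfl⟩ := QuotientGroup.mk_surjective x
    have : φ g = 1 := hx
    exact (QuotientGroup.eq_one_iff g).2 this
  haveI : Finite (Q ⧸ φ.ker) := inferInstance
  haveI : IsCyclic (Q ⧸ φ.ker) := isCyclic_of_injective_ringHom ψ hinj
  obtain ⟨c, hc⟩ := IsCyclic.exists_generator (α := Q ⧸ φ.ker)
  have h1 : Nat.card (Q ⧸ φ.ker) = orderOf c := by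
    rw [← Nat.card_zpowers]
    have : Subgroup.zpowers c = ⊤ := by
      rw [eq_top_iff]; intro x _; exact hc x
    rw [this]; exact (Nat.card_congr Subgroup.topEquiv.toEquiv).symm
  have h2 : c ^ q = 1 := by
    obtain ⟨g, rfl⟩ := QuotientGroup.mk_surjective c
    rw [← QuotientGroup.mk_pow, hQ]; rfl
  have h3 : orderOf c ≤ q := orderOf_le_of_pow_eq_one hq.pos h2
  show Nat.card (Q ⧸ φ.ker) ≤ q
  omega

theorem index_kerQ_le {q : ℕ} (hq : q.Prime) [Finite Q] (hQ : ∀ g : Q, g ^ q = 1)
    (f : Q →* A) (N' N : Submodule A M) (h : N' ⋖ N) : (KerQ f N' N).index ≤ q := by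
  classical
  have hs : IsSimpleModule A (N ⧸ Submodule.comap N.subtype N') :=
    (covBy_iff_quot_is_simple h.le).1 h
  obtain ⟨I, hI, ⟨e⟩⟩ := isSimpleModule_iff_quot_maximal.1 hs
  haveI := hI
  haveI : IsDomain (A ⧸ I) := Ideal.Quotient.isDomain I
  have h1 := card_le_of_domain hq hQ ((Ideal.Quotient.mk I : A →+* A ⧸ I).toMonoidHom.comp f)
  refine le_trans (Subgroup.index_antitone ?_ |>.trans h1) le_rfl
  intro g hg x hx
  have hg1 : Ideal.Quotient.mk I (f g) = 1 := hg
  have hg2 : f g - 1 ∈ I := by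
    rw [← Ideal.Quotient.eq_zero_iff_mem, map_sub, hg1, map_one, sub_self]
  let y : N ⧸ Submodule.comap N.subtype N' := Submodule.Quotient.mk ⟨x, hx⟩
  have h2 : (f g - 1) • y = 0 := by
    apply e.injective
    rw [map_smul, map_zero]
    obtain ⟨a, ha⟩ := Ideal.Quotient.mk_surjective (e y)
    rw [← ha, Algebra.smul_def, Ideal.Quotient.algebraMap_eq, ← map_mul,
      Ideal.Quotient.eq_zero_iff_mem]
    exact I.mul_mem_right _ hg2
  have h3 : (Submodule.Quotient.mk ((f g - 1) • (⟨x, hx⟩ : N)) :
      N ⧸ Submodule.comap N.subtype N') = 0 := h2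
  rw [Submodule.Quotient.mk_eq_zero] at h3
  have h4 : (f g - 1) • x ∈ N' := h3
  rwa [sub_smul, one_smul] at h4

theorem index_ker_le {p q : ℕ} (hp : p.Prime) (hq : q.Prime) (hpq : p ≠ q) [Finite Q] [Finite M]
    (f : Q →* A) (hQ : ∀ g : Q, g ^ q = 1) (hM : ∀ x : M, p • x = 0) (n : ℕ) :
    ∀ N : Submodule A M, Nat.card N ≤ p ^ n → (Ker f N).index ≤ q ^ n := by
  classical
  have hc : Nat.Coprime p q := (Nat.coprime_primes hp hq).2 hpq
  induction n with
  | zero =>
    intro N hN
    have h1 : N = ⊥ := by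
      rw [eq_bot_iff]
      intro x hx
      have : Subsingleton N := by
        rw [← Finite.card_le_one_iff_subsingleton]
        simpa using hN
      have h2 : (⟨x, hx⟩ : N) = 0 := Subsingleton.elim _ _
      simpa using congrArg Subtype.val h2
    have h2 : Ker f N = ⊤ := by
      rw [eq_top_iff]
      intro g _ x hx
      rw [h1, Submodule.mem_bot] at hx
      rw [hx, smul_zero]
    rw [h2]; simp
  | succ n ih =>
    intro N hN
    by_cases hb : N = ⊥
    · have h2 : Ker f N = ⊤ := by
        rw [eq_top_iff]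
        intro g _ x hx
        rw [hb, Submodule.mem_bot] at hx
        rw [hx, smul_zero]
      rw [h2]
      simpa using Nat.one_le_pow _ _ hq.pos
    · -- choose a maximal proper submodule of `N`
      obtain ⟨N', hN'⟩ : ∃ N', N' ⋖ N := by
        have hfin : (Set.Iio N).Finite := Set.toFinite _
        have hne : (Set.Iio N).Nonempty := ⟨⊥, bot_lt_iff_ne_bot.2 hb⟩
        obtain ⟨N', h1, h2⟩ := hfin.exists_maximal hne
        refine ⟨N', h1, ?_⟩
        intro K hK1 hK2
        exact absurd (h2 hK2 hK1.le) (not_le_of_gt hK1)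
      have hcard : Nat.card N' ≤ p ^ n := by
        have h1 : Nat.card N' * p ≤ Nat.card N := by
          obtain ⟨x, hxN, hxN'⟩ := SetLike.exists_of_lt hN'.lt
          let s : AddSubgroup N := (Submodule.comap N.subtype N').toAddSubgroup
          have c1 : Nat.card N = Nat.card (N ⧸ s) * Nat.card s :=
            AddSubgroup.card_eq_card_quotient_mul_card_addSubgroup s
          have c2 : Nat.card s = Nat.card N' :=
            Nat.card_congr (Submodule.comapSubtypeEquivOfLe hN'.le).toEquiv
          have c3 : p ∣ Nat.card (N ⧸ s) := by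
            have o1 : p • (QuotientAddGroup.mk (⟨x, hxN⟩ : N) : N ⧸ s) = 0 := by
              rw [← QuotientAddGroup.mk_nsmul]
              have : p • (⟨x, hxN⟩ : N) = 0 := Subtype.ext (hM x)
              rw [this]; rfl
            have o2 : (QuotientAddGroup.mk (⟨x, hxN⟩ : N) : N ⧸ s) ≠ 0 := by
              intro h0
              exact hxN' ((QuotientAddGroup.eq_zero_iff _).1 h0)
            haveI : Fact p.Prime := ⟨hp⟩
            rw [← addOrderOf_eq_prime o1 o2]
            exact addOrderOf_dvd_natCard _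
          have c4 : p ≤ Nat.card (N ⧸ s) := Nat.le_of_dvd Nat.card_pos c3
          rw [c1, c2, mul_comm]
          exact Nat.mul_le_mul_right _ c4
        have h2 : Nat.card N' * p ≤ p ^ n * p := by
          rw [← pow_succ]; exact h1.trans hN
        exact Nat.le_of_mul_le_mul_right h2 hp.pos
      have h1 := ih N' hcard
      have h2 := index_kerQ_le hq hQ f N' N hN'
      have h3 := ker_inf_le hc f hQ hM N' N
      calc (Ker f N).index ≤ (Ker f N' ⊓ KerQ f N' N).index := Subgroup.index_antitone h3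
        _ ≤ (Ker f N').index * (KerQ f N' N).index := Subgroup.index_inf_le
        _ ≤ q ^ n * q := Nat.mul_le_mul h1 h2
        _ = q ^ (n + 1) := (pow_succ _ _).symm

end Pool.Agent.Helper75.RS
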